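import Pool.Agent.Helper12.GM.Lib

/-!
# Local Harnack inequality (module HARN)
-/

set_option autoImplicit false

open scoped ENNReal Topology
open Filter

namespace Pool.Agent.Helper12.GM

variable {Γ : Type} [Group Γ]

/-- a path of fixed length with a lower bound of the weight -/
def HARN_P (Q : Geo Γ) (μ : PMF Γ) (g : Γ) : Prop :=
  ∃ (n : ℕ) (c r : ℝ), 0 < c ∧ 0 ≤ r ∧ ∀ (Ω : Set Γ) (x : Γ), (∀ y, Q.d x y ≤ r → y ∈ Ω) →
    ENNReal.ofReal c ≤ pw μ Ω n x (x * g)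

theorem HARN_P_one (Q : Geo Γ) (μ : PMF Γ) : HARN_P Q μ 1 := by
  refine ⟨0, 1, 0, one_pos, le_rfl, fun Ω x _ => ?_⟩
  rw [mul_one, pw_zero_self, ENNReal.ofReal_one]

theorem HARN_P_mem (Q : Geo Γ) (μ : PMF Γ) {s : Γ} (hs : μ s ≠ 0) : HARN_P Q μ s := by
  refine ⟨1, (μ s).toReal, 0, ?_, le_rfl, fun Ω x hx => ?_⟩
  · exact ENNReal.toReal_pos hs (μ.apply_ne_top s)
  · have hxΩ : x ∈ Ω := hx x (by rw [Q.d_self])
    rw [ENNReal.ofReal_toReal (μ.apply_ne_top s), pw_succ_mem μ 0 _ hxΩ]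
    refine le_trans ?_ (ENNReal.le_tsum s)
    rw [pw_zero_self, mul_one]

theorem HARN_P_mul (Q : Geo Γ) (μ : PMF Γ) {g h : Γ} (hg : HARN_P Q μ g) (hh : HARN_P Q μ h) :
    HARN_P Q μ (g * h) := by
  obtain ⟨n, c, r, hc, hr, H⟩ := hg
  obtain ⟨n', c', r', hc', hr', H'⟩ := hh
  refine ⟨n + n', c * c', r + (Q.L g + r'), mul_pos hc hc', ?_, fun Ω x hx => ?_⟩
  · have := Q.nonneg g
    positivity
  · rw [pw_add, ENNReal.ofReal_mul hc.le]
    refine le_trans ?_ (ENNReal.le_tsum (x * g))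
    have h1 : ENNReal.ofReal c ≤ pw μ Ω n x (x * g) := by
      refine H Ω x fun y hy => hx y ?_
      have := Q.nonneg g
      linarith
    have h2 : ENNReal.ofReal c' ≤ pw μ Ω n' (x * g) (x * (g * h)) := by
      rw [← mul_assoc]
      refine H' Ω (x * g) fun y hy => hx y ?_
      have h3 := Q.d_tri x (x * g) y
      have h4 : Q.d x (x * g) = Q.L g := by
        unfold Geo.d
        rw [inv_mul_cancel_left]
      linarith
    exact mul_le_mul' h1 h2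

theorem HARN_P_all (Q : Geo Γ) (μ : PMF Γ) (hμ : Adm μ) (g : Γ) : HARN_P Q μ g := by
  obtain ⟨S, hS, hinv, hgen⟩ := hμ.gen
  have hg : g ∈ Subgroup.closure S := by rw [hgen]; trivial
  have hmem : ∀ s ∈ S, HARN_P Q μ s := fun s hs =>
    HARN_P_mem Q μ ((PMF.mem_support_iff μ s).mp (hS hs))
  suffices h : HARN_P Q μ g ∧ HARN_P Q μ g⁻¹ from h.1
  refine Subgroup.closure_induction (p := fun g _ => HARN_P Q μ g ∧ HARN_P Q μ g⁻¹)
    ?_ ?_ ?_ ?_ hg
  · intro s hs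
    exact ⟨hmem s hs, hmem _ (hinv s hs)⟩
  · rw [inv_one]
    exact ⟨HARN_P_one Q μ, HARN_P_one Q μ⟩
  · intro a b _ _ ha hb
    rw [mul_inv_rev]
    exact ⟨HARN_P_mul Q μ ha.1 hb.1, HARN_P_mul Q μ hb.2 ha.2⟩
  · intro a _ ha
    rw [inv_inv]
    exact ⟨ha.2, ha.1⟩

theorem st_HARN : ST_HARN := by
  intro Γ _ Q μ hμ r
  have key : ∀ T : Finset Γ, ∃ (c r' : ℝ), 0 < c ∧ 0 ≤ r' ∧ ∀ (Ω : Set Γ) (x g : Γ), g ∈ T →
      (∀ y, Q.d x y ≤ r' → y ∈ Ω) → ENNReal.ofReal c ≤ Gr μ Ω x (x * g) := by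
    classical
    intro T
    induction T using Finset.induction_on with
    | empty => exact ⟨1, 0, one_pos, le_rfl, fun Ω x g hg => absurd hg (Finset.notMem_empty g)⟩
    | insert a T _ ih =>
      obtain ⟨c, r', hc, hr', H⟩ := ih
      obtain ⟨n, c₂, r₂, hc₂, hr₂, H₂⟩ := HARN_P_all Q μ hμ a
      refine ⟨min c c₂, max r' r₂, lt_min hc hc₂, le_max_of_le_left hr', fun Ω x g hg hx => ?_⟩
      rcases Finset.mem_insert.mp hg with rfl | hg
      · refine (ENNReal.ofReal_le_ofReal (min_le_right _ _)).trans ?_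
        exact (H₂ Ω x fun y hy => hx y (hy.trans (le_max_right _ _))).trans
          (Gr_zero_le_pw μ Ω n x _)
      · refine (ENNReal.ofReal_le_ofReal (min_le_left _ _)).trans ?_
        exact H Ω x g hg fun y hy => hx y (hy.trans (le_max_left _ _))
  obtain ⟨c, r', hc, hr', H⟩ := key (Q.fin r).toFinset
  exact ⟨c, r', hc, hr', fun Ω x g hg hx => H Ω x g ((Q.fin r).mem_toFinset.mpr hg) hx⟩

end Pool.Agent.Helper12.GM
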