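import Pool.Agent.Helper12.GM.Lib

/-!
# Exponential lower bound of the Green function (module HLOW)
-/

set_option autoImplicit false

open scoped ENNReal Topology
open Filter

namespace Pool.Agent.Helper12.GM

theorem st_HLOW (hH : ST_HARN) : ST_HLOW := by
  intro Γ _ Q μ K hW
  have hC := Q.one_le_C
  obtain ⟨c, r', hc, -, H⟩ := hH Q μ hW.adm (2 * Q.C + 1)
  have hK := hW.one_le
  have hG0 : Gr μ Set.univ 1 1 ≤ ENNReal.ofReal (1 + K) := hW.G0_le
  set b : ℝ := min c 1 / (1 + K) with hb
  have hm : 0 < min c 1 := lt_min hc one_pos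
  have hb0 : 0 < b := by positivity
  have hb1 : b ≤ 1 := by
    rw [hb, div_le_one (by linarith)]
    exact (min_le_right _ _).trans (by linarith)
  have hbc : b * (1 + K) ≤ c := by
    rw [hb, div_mul_cancel₀ _ (by linarith : (1 + K) ≠ 0)]
    exact min_le_left _ _
  have hbc' : b ≤ c := by
    refine le_trans ?_ hbc
    nlinarith
  -- one step
  have base : ∀ x y, Q.d x y ≤ 2 * Q.C + 1 → ENNReal.ofReal c ≤ Gr μ Set.univ x y := by
    intro x y hxy
    have h := H Set.univ x (x⁻¹ * y) hxy (fun _ _ => trivial)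
    rwa [mul_inv_cancel_left] at h
  have key : ∀ (n : ℕ) (x y : Γ), Q.d x y ≤ n + (2 * Q.C + 1) →
      ENNReal.ofReal (b ^ (n + 1)) ≤ Gr μ Set.univ x y := by
    intro n
    induction n with
    | zero =>
      intro x y hxy
      rw [zero_add, pow_one]
      refine (ENNReal.ofReal_le_ofReal hbc').trans (base x y ?_)
      simpa using hxy
    | succ n ih =>
      intro x y hxy
      rcases le_or_gt (Q.d x y) (2 * Q.C + 1) with h | h
      · refine (ENNReal.ofReal_le_ofReal ?_).trans (base x y h)
        refine le_trans ?_ hbc'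
        exact pow_le_of_le_one hb0.le hb1 (Nat.succ_ne_zero _)
      · obtain ⟨p, hp1, hp2⟩ := Q.d_geod x y (1 + Q.C) (by linarith) (by linarith)
        have h1 : ENNReal.ofReal c ≤ Gr μ Set.univ x p := base x p (by linarith)
        have h2 : ENNReal.ofReal (b ^ (n + 1)) ≤ Gr μ Set.univ p y := by
          refine ih p y ?_
          push_cast at hxy
          linarith
        have h3 := Gr_chain μ Set.univ x p y
        have h4 : ENNReal.ofReal (1 + K) * ENNReal.ofReal (b ^ (n + 1 + 1)) ≤
            ENNReal.ofReal (1 + K) * Gr μ Set.univ x y := by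
          calc ENNReal.ofReal (1 + K) * ENNReal.ofReal (b ^ (n + 1 + 1))
              = ENNReal.ofReal ((b * (1 + K)) * b ^ (n + 1)) := by
                rw [← ENNReal.ofReal_mul (by linarith)]
                congr 1
                ring
            _ ≤ ENNReal.ofReal (c * b ^ (n + 1)) :=
                ENNReal.ofReal_le_ofReal (mul_le_mul_of_nonneg_right hbc (by positivity))
            _ = ENNReal.ofReal c * ENNReal.ofReal (b ^ (n + 1)) := ENNReal.ofReal_mul hc.le
            _ ≤ Gr μ Set.univ x p * Gr μ Set.univ p y := mul_le_mul' h1 h2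
            _ ≤ Gr μ Set.univ 1 1 * Gr μ Set.univ x y := h3
            _ ≤ ENNReal.ofReal (1 + K) * Gr μ Set.univ x y := mul_le_mul' hG0 le_rfl
        have h5 : ENNReal.ofReal (1 + K) ≠ 0 := by
          rw [Ne, ENNReal.ofReal_eq_zero, not_le]
          linarith
        exact (ENNReal.mul_le_mul_iff_right h5 ENNReal.ofReal_ne_top).mp h4
  refine ⟨b ^ 2, -Real.log b, by positivity, ?_, fun x y => ?_⟩
  · rw [neg_nonneg]
    exact Real.log_nonpos hb0.le hb1
  · have hd := Q.d_nonneg x y
    have h1 := key ⌈Q.d x y⌉₊ x y (by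
      have := Nat.le_ceil (Q.d x y)
      linarith)
    refine le_trans (ENNReal.ofReal_le_ofReal ?_) h1
    have h2 : ((⌈Q.d x y⌉₊ : ℕ) : ℝ) ≤ Q.d x y + 1 := (Nat.ceil_lt_add_one hd).le
    have h3 : Real.exp (-(-Real.log b) * Q.d x y) = b ^ (Q.d x y) := by
      rw [Real.rpow_def_of_pos hb0, neg_neg]
    rw [h3, ← Real.rpow_natCast b 2, ← Real.rpow_add hb0, ← Real.rpow_natCast b (_ + 1)]
    apply Real.rpow_le_rpow_of_exponent_ge hb0 hb1
    push_cast
    linarith

end Pool.Agent.Helper12.GM
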